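import Mathlib
import Pool.Agent.R859.OS.Main

/-!
# The alternating character sum over doubled partitions: a counterexample

For `λ = (5, 3)` and `N = 3` one has `A_N(λ) = 4` and `B_N(λ) = 8`, so the proposed identity
`A_N(λ) = B_N(λ)` fails.
-/

set_option autoImplicit false

namespace Pool.Agent.Results.MP_3827cc_co.CounterexampleFiveThree

open Pool.Agent.R859.OS

theorem result :
    (∃ lam : Nat.Partition 8, lam.parts = {5, 3} ∧ sumA 3 lam = 4 ∧ sumB 3 lam = 8) ∧
      ¬ ∀ (n : ℕ) (lam : Nat.Partition n) (N : ℕ), 1 ≤ n → 1 ≤ N → sumA N lam = sumB N lam := by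
  refine ⟨⟨lam53, rfl, sumA_lam53, sumB_lam53⟩, fun h => ?_⟩
  have := h 8 lam53 3 (by norm_num) (by norm_num)
  rw [sumA_lam53, sumB_lam53] at this
  norm_num at this

end Pool.Agent.Results.MP_3827cc_co.CounterexampleFiveThree
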